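import Pool.Agent.H29.FX.Targets2

/-!
# Row CNX of the board tfx_modules (MP_7ecdd4_nt): the number of exponents outside the spread
parts
-/

set_option autoImplicit false

open Finset

namespace Pool.Agent.H99.TFX

open Pool.Agent.H29.FX Pool.Agent.H38.AE.Statement

theorem pf_CNX : T_CNX := by
  classical
  intro E m T Y x s hx hT hY hr hs hh
  obtain ⟨hx0, hxc, -⟩ := hx
  set a : Fin 3 → ℕ := fun i => (x i).natAbs with ha
  have ha0 : ∀ i, a i ≠ 0 := fun i => Int.natAbs_ne_zero.2 (hx0 i)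
  have hac : ∀ i j, i ≠ j → Nat.Coprime (a i) (a j) := fun i j hij =>
    Int.isCoprime_iff_gcd_eq_one.1 (hxc i j hij)
  set N : ℕ := (∏ i, x i).natAbs with hN
  have hNa : N = ∏ i, a i := by
    rw [hN, Fin.prod_univ_three, Fin.prod_univ_three, Int.natAbs_mul, Int.natAbs_mul]
  have hN0 : N ≠ 0 := by
    rw [hNa]
    exact Finset.prod_ne_zero_iff.2 fun i _ => ha0 i
  set Q : ℕ := ∏ i, Pool.Agent.H38.AE.rad (s i) with hQ
  -- a prime divides exactly one entry
  have hone : ∀ (p : ℕ) (i j : Fin 3), p.Prime → p ∣ a i → p ∣ a j → i = j := by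
    intro p i j hp hi hj
    by_contra hij
    exact hp.one_lt.ne' (Nat.eq_one_of_dvd_coprimes (hac i j hij) hi hj)
  have hfac : ∀ (p : ℕ) (i : Fin 3), p.Prime → p ∣ a i → N.factorization p =
      (a i).factorization p := by
    intro p i hp hi
    rw [hNa, Nat.factorization_prod fun j _ => ha0 j, Finsupp.finsetSum_apply]
    refine Finset.sum_eq_single i (fun j _ hji => ?_) (fun h => absurd (mem_univ i) h)
    exact Nat.factorization_eq_zero_of_not_dvd fun hj => hji (hone p j i hp hj hi)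
  have hsub : ∀ i, (a i).primeFactors ⊆ N.primeFactors := by
    intro i
    refine Nat.primeFactors_mono ?_ hN0
    rw [hNa]
    exact Finset.dvd_prod_of_mem a (mem_univ i)
  set B : Fin 3 × ℕ → Finset ℕ := fun g =>
    (a g.1).primeFactors.filter fun p => (a g.1).factorization p = g.2 with hB
  set S : Finset ℕ := N.primeFactors.image fun p => N.factorization p with hS
  set G : Finset (Fin 3 × ℕ) := (univ ×ˢ S).filter fun g => T < ze (a g.1) g.2 with hG
  have hBz : ∀ g, ze (a g.1) g.2 = ∏ p ∈ B g, p := fun g => rfl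
  have hdis : Set.PairwiseDisjoint (G : Set (Fin 3 × ℕ)) B := by
    intro g _ g' _ hne
    rw [Function.onFun, Finset.disjoint_left]
    intro p hp hp'
    obtain ⟨h1, h2⟩ := mem_filter.1 hp
    obtain ⟨h3, h4⟩ := mem_filter.1 hp'
    have h5 : g.1 = g'.1 := hone p _ _ (Nat.prime_of_mem_primeFactors h1)
      (Nat.dvd_of_mem_primeFactors h1) (Nat.dvd_of_mem_primeFactors h3)
    refine hne (Prod.ext h5 ?_)
    rw [← h2, ← h4, h5]
  have hprod : ∏ g ∈ G, ze (a g.1) g.2 ≤ radical (∏ i, x i) := by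
    rw [Finset.prod_congr rfl fun g _ => hBz g, ← Finset.prod_biUnion hdis, radical]
    refine Finset.prod_le_prod_of_subset_of_one_le' ?_ fun p hp _ =>
      (Nat.prime_of_mem_primeFactors hp).one_lt.le
    intro p hp
    obtain ⟨g, _, hg⟩ := mem_biUnion.1 hp
    exact hsub _ (mem_filter.1 hg).1
  have hcard : G.card ≤ m := by
    have h1 : T ^ G.card ≤ ∏ g ∈ G, (ze (a g.1) g.2 : ℝ) := by
      rw [← Finset.prod_const]
      exact Finset.prod_le_prod (fun _ _ => by linarith) fun g hg => (mem_filter.1 hg).2.le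
    have h2 : ∏ g ∈ G, (ze (a g.1) g.2 : ℝ) ≤ (radical (∏ i, x i) : ℝ) := by
      rw [← Nat.cast_prod]
      exact_mod_cast hprod
    exact (pow_le_pow_iff_right₀ hT).1 (h1.trans (h2.trans (hr.trans hY)))
  have hexp : exponents Q (∏ i, x i) ⊆ Icc 1 E ∪ G.image Prod.snd := by
    intro e he
    obtain ⟨p, hp, hpe⟩ := mem_image.1 he
    obtain ⟨hp1, hpQ⟩ := mem_filter.1 hp
    have hpp := Nat.prime_of_mem_primeFactors hp1
    have hpN : p ∣ N := Nat.dvd_of_mem_primeFactors hp1
    obtain ⟨i, -, hi⟩ := (hpp.prime.dvd_finsetProd_iff a).1 (hNa ▸ hpN)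
    have hpi : p ∈ (a i).primeFactors := Nat.mem_primeFactors.2 ⟨hpp, hi, ha0 i⟩
    have hps : ¬ p ∣ s i := by
      intro h
      refine hpQ ?_
      have h1 : p ∈ (s i).primeFactors :=
        Nat.mem_primeFactors.2 ⟨hpp, h, (Nat.one_le_iff_ne_zero.1 (hs i).1)⟩
      have h2 : p ∣ Pool.Agent.H38.AE.rad (s i) := Finset.dvd_prod_of_mem (fun p => p) h1
      exact h2.trans (Finset.dvd_prod_of_mem (fun i => Pool.Agent.H38.AE.rad (s i)) (mem_univ i))
    have hfe : (a i).factorization p = e := by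
      rw [← hfac p i hpp hi]
      exact hpe
    have h1 : 1 ≤ e := by
      rw [← hfe]
      exact (hpp.dvd_iff_one_le_factorization (ha0 i)).1 hi
    rw [mem_union]
    rcases hh i p hpi hps with h | h
    · left
      rw [mem_Icc]
      exact ⟨h1, hfe ▸ h⟩
    · right
      refine mem_image.2 ⟨(i, e), mem_filter.2 ⟨mem_product.2 ⟨mem_univ _, ?_⟩, ?_⟩, rfl⟩
      · exact mem_image.2 ⟨p, hp1, hpe⟩
      · change T < ze (a i) e
        rw [← hfe]
        exact h
  calc (exponents Q (∏ i, x i)).card ≤ (Icc 1 E ∪ G.image Prod.snd).card := card_le_card hexp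
    _ ≤ (Icc 1 E).card + (G.image Prod.snd).card := card_union_le _ _
    _ ≤ E + m := by
        refine add_le_add (by rw [Nat.card_Icc]; omega) (card_image_le.trans hcard)

end Pool.Agent.H99.TFX
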